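import Mathlib
import Pool.Agent.V11304.PM.Cyc

/-!
# MP_cf7092_nt, Q1 (affirmative answer)

For every odd prime `p` the permanent of the `p × p` matrix `[|j-k|]` is
congruent to `-1/2` modulo `p`.
-/

namespace Pool.Agent.Results.MP_cf7092_nt.Full

/-- The matrix `[|j-k|]` of order `n` over the integers. -/
def D (n : ℕ) : Matrix (Fin n) (Fin n) ℤ :=
  Matrix.of fun j k => |((j : ℕ) : ℤ) - ((k : ℕ) : ℤ)|

/-- `2 per(D_p) + 1 ≡ 0 (mod p)` for every odd prime `p`. -/
theorem result : ∀ p : ℕ, p.Prime → p ≠ 2 →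
    2 * (D p).permanent + 1 ≡ 0 [ZMOD p] := by
  intro p hp hp2
  have h := Pool.Agent.V11304.PM.main p hp hp2 0
  have h2 : (Matrix.of fun j k : Fin p =>
      if j = k then (0 : ℤ) else |((j : ℕ) : ℤ) - ((k : ℕ) : ℤ)|) = D p := by
    ext j k
    unfold D
    simp only [Matrix.of_apply]
    split_ifs with hjk
    · subst hjk; simp
    · rfl
  rw [h2] at h
  have h3 := h.add_right 1
  rw [show (2 * 0 - 1 + 1 : ℤ) = 0 by norm_num] at h3
  exact h3

end Pool.Agent.Results.MP_cf7092_nt.Full
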